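import Pool.Agent.V7H68.HF.Spec0

/-! Project HF, piece LLN: the law of large numbers along a random branch. -/

set_option autoImplicit false
set_option linter.unusedSectionVars false

namespace Pool.Agent.V7H67.HF

open Finset Real MeasureTheory Filter

variable {ι : Type} [Fintype ι] [DecidableEq ι]

/-- the index of the cell of level `k` -/
noncomputable def ix (b k : ℕ) (u : ι → ℝ) : ι → ℕ := fun i => ⌊(b:ℝ) ^ k * u i⌋₊

/-- the unit cube -/
def Qc (ι : Type) : Set (ι → ℝ) := {u | ∀ i, 0 ≤ u i ∧ u i < 1}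

lemma ix_meas (b k : ℕ) : Measurable (ix (ι := ι) b k) :=
  measurable_pi_iff.2 fun i => Nat.measurable_floor.comp ((measurable_pi_apply i).const_mul _)

lemma Qc_eq : Qc ι = Set.pi Set.univ fun _ : ι => Set.Ico (0:ℝ) 1 := by
  ext u
  simp [Qc, Set.mem_pi]

lemma Qc_meas : MeasurableSet (Qc ι) := by
  rw [Qc_eq]
  exact MeasurableSet.univ_pi fun _ => measurableSet_Ico

lemma ix_div {b : ℕ} (hb : 2 ≤ b) (k r : ℕ) (u : ι → ℝ) :
    ix b k u = fun i => ix b (k + r) u i / b ^ r := by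
  funext i
  unfold ix
  have hb0 : (b:ℝ) ≠ 0 := by positivity
  have h := Nat.floor_div_natCast ((b:ℝ) ^ (k + r) * u i) (b ^ r)
  rw [← h]
  congr 1
  push_cast
  rw [pow_add]
  field_simp

lemma ix_lt {b : ℕ} (hb : 2 ≤ b) (k : ℕ) {u : ι → ℝ} (hu : u ∈ Qc ι) (i : ι) :
    ix b k u i < b ^ k := by
  unfold ix
  have hbk : (0:ℝ) < (b:ℝ) ^ k := by positivity
  rw [Nat.floor_lt (mul_nonneg hbk.le (hu i).1)]
  push_cast
  calc (b:ℝ) ^ k * u i < (b:ℝ) ^ k * 1 := mul_lt_mul_of_pos_left (hu i).2 hbk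
    _ = _ := mul_one _

/-- the cell with the index `z` -/
def cell (b k : ℕ) (z : ι → ℕ) : Set (ι → ℝ) :=
  Set.pi Set.univ fun i => Set.Ico ((z i : ℝ) / (b:ℝ) ^ k) (((z i : ℝ) + 1) / (b:ℝ) ^ k)

lemma mem_cell {b : ℕ} (hb : 2 ≤ b) {k : ℕ} {z : ι → ℕ} {u : ι → ℝ} :
    u ∈ cell b k z ↔ (∀ i, 0 ≤ u i) ∧ ix b k u = z := by
  have hbk : (0:ℝ) < (b:ℝ) ^ k := by positivity
  unfold cell
  rw [Set.mem_pi]
  constructor
  · intro h
    have h0 : ∀ i, 0 ≤ u i := fun i => by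
      have := (h i (Set.mem_univ i)).1
      exact le_trans (by positivity) this
    refine ⟨h0, ?_⟩
    funext i
    obtain ⟨h1, h2⟩ := h i (Set.mem_univ i)
    unfold ix
    rw [Nat.floor_eq_iff (mul_nonneg hbk.le (h0 i))]
    rw [div_le_iff₀ hbk] at h1
    rw [lt_div_iff₀ hbk] at h2
    constructor <;> linarith [mul_comm (u i) ((b:ℝ) ^ k)]
  · rintro ⟨h0, rfl⟩ i _
    have h3 : ix b k u i = ⌊(b:ℝ) ^ k * u i⌋₊ := rfl
    have h1 := Nat.floor_le (mul_nonneg hbk.le (h0 i))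
    have h2 := Nat.lt_floor_add_one ((b:ℝ) ^ k * u i)
    rw [← h3] at h1 h2
    rw [Set.mem_Ico, div_le_iff₀ hbk, lt_div_iff₀ hbk]
    constructor <;> linarith [mul_comm (u i) ((b:ℝ) ^ k)]

lemma cell_vol {b : ℕ} (hb : 2 ≤ b) (k : ℕ) (z : ι → ℕ) :
    (volume (cell b k z)).toReal = (((b:ℝ) ^ k) ^ Fintype.card ι)⁻¹ := by
  have hbk : (0:ℝ) < (b:ℝ) ^ k := by positivity
  unfold cell
  rw [Real.volume_pi_Ico_toReal]
  · have h : ∀ i : ι, ((z i : ℝ) + 1) / (b:ℝ) ^ k - (z i : ℝ) / (b:ℝ) ^ k = ((b:ℝ) ^ k)⁻¹ := by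
      intro i
      field_simp
      ring
    rw [prod_congr rfl fun i _ => h i, prod_const, card_univ, inv_pow]
  · intro i
    change (z i : ℝ) / (b:ℝ) ^ k ≤ ((z i : ℝ) + 1) / (b:ℝ) ^ k
    gcongr
    linarith

lemma cell_meas (b k : ℕ) (z : ι → ℕ) : MeasurableSet (cell b k z) :=
  MeasurableSet.univ_pi fun _ => measurableSet_Ico

lemma Qc_cells {b : ℕ} (hb : 2 ≤ b) (k : ℕ) :
    Qc ι = ⋃ z : ι → Fin (b ^ k), cell b k fun i => (z i : ℕ) := by
  have hbk : (0:ℝ) < (b:ℝ) ^ k := by positivity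
  ext u
  rw [Set.mem_iUnion]
  constructor
  · intro hu
    refine ⟨fun i => ⟨ix b k u i, ix_lt hb k hu i⟩, ?_⟩
    rw [mem_cell hb]
    exact ⟨fun i => (hu i).1, rfl⟩
  · rintro ⟨z, hz⟩ i
    rw [mem_cell hb] at hz
    refine ⟨hz.1 i, ?_⟩
    have h1 : ix b k u i < b ^ k := by
      rw [hz.2]
      exact (z i).2
    unfold ix at h1
    rw [Nat.floor_lt (mul_nonneg hbk.le (hz.1 i))] at h1
    push_cast at h1
    by_contra h2
    push Not at h2
    have := mul_le_mul_of_nonneg_left h2 hbk.le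
    linarith

/-- functions of the index are integrable -/
lemma int_ix {b : ℕ} (hb : 2 ≤ b) (k : ℕ) (F : (ι → ℕ) → ℝ) :
    Integrable (fun u => F (ix b k u)) (volume.restrict (Qc ι)) := by
  have hfin : volume (Qc ι) ≠ ⊤ := by
    rw [Qc_eq, Real.volume_pi_Ico]
    exact ENNReal.prod_ne_top fun i _ => ENNReal.ofReal_ne_top
  have : IsFiniteMeasure (volume.restrict (Qc ι)) := ⟨by
    rw [Measure.restrict_apply_univ]
    exact hfin.lt_top⟩
  refine Integrable.of_bound ((measurable_of_countable F).comp (ix_meas b k)).aestronglyMeasurable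
    (∑ z : ι → Fin (b ^ k), |F fun i => (z i : ℕ)|) ?_
  rw [ae_restrict_iff' Qc_meas]
  refine ae_of_all _ fun u hu => ?_
  rw [Real.norm_eq_abs]
  exact single_le_sum (f := fun z : ι → Fin (b ^ k) => |F fun i => (z i : ℕ)|)
    (fun _ _ => abs_nonneg _) (mem_univ (fun i => (⟨ix b k u i, ix_lt hb k hu i⟩ : Fin (b ^ k))))

/-- the integral of a function of the index -/
lemma integral_ix {b : ℕ} (hb : 2 ≤ b) (k : ℕ) (F : (ι → ℕ) → ℝ) :
    ∫ u in Qc ι, F (ix b k u) =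
      (((b:ℝ) ^ k) ^ Fintype.card ι)⁻¹ * ∑ z : ι → Fin (b ^ k), F fun i => (z i : ℕ) := by
  have hint := int_ix (ι := ι) hb k F
  rw [Qc_cells hb k] at hint ⊢
  rw [integral_iUnion_fintype (fun z => cell_meas b k _)]
  · rw [mul_sum]
    refine sum_congr rfl fun z _ => ?_
    have h1 : ∫ u in cell b k (fun i => (z i : ℕ)), F (ix b k u) =
        ∫ u in cell b k (fun i => (z i : ℕ)), F (fun i => (z i : ℕ)) :=
      setIntegral_congr_fun (cell_meas b k _) fun u hu => by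
        rw [mem_cell hb] at hu
        rw [hu.2]
    rw [h1, setIntegral_const, smul_eq_mul, measureReal_def, cell_vol hb]
  · intro z z' hzz
    rw [Function.onFun, Set.disjoint_left]
    intro u hu hu'
    rw [mem_cell hb] at hu hu'
    apply hzz
    have h1 := hu.2.symm.trans hu'.2
    funext i
    exact Fin.ext (congrFun h1 i)
  · intro z
    exact IntegrableOn.mono_set hint
      (Set.subset_iUnion (fun z : ι → Fin (b ^ k) => cell b k fun i => (z i : ℕ)) z)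

/-- the sum over the indices of level `m + j` -/
lemma sum_split (b m j : ℕ) (H : (ι → ℕ) → ℝ) :
    ∑ z : ι → Fin (b ^ (m + j)), H (fun i => (z i : ℕ)) =
      ∑ y : ι → Fin (b ^ m), ∑ w : ι → Fin (b ^ j), H (fun i => b ^ j * (y i : ℕ) + (w i : ℕ)) := by
  have e0 : b ^ m * b ^ j = b ^ (m + j) := (pow_add b m j).symm
  rw [← Fintype.sum_prod_type' (f := fun (y : ι → Fin (b ^ m)) (w : ι → Fin (b ^ j)) =>
    H (fun i => b ^ j * (y i : ℕ) + (w i : ℕ)))]
  refine (Fintype.sum_equiv ((Equiv.arrowProdEquivProdArrow ι (fun _ => Fin (b ^ m))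
    (fun _ => Fin (b ^ j))).symm.trans (Equiv.piCongrRight fun _ =>
      finProdFinEquiv.trans (finCongr e0))) _ _ fun x => ?_).symm
  congr 1
  funext i
  simp [finProdFinEquiv]
  ring

/-- the average over the subcells has the same integral -/
lemma key {b : ℕ} (hb : 2 ≤ b) (m j : ℕ) (G B' : (ι → ℕ) → ℝ) :
    ∫ u in Qc ι, G (ix b m u) * B' (ix b (m + j) u) =
      ∫ u in Qc ι, G (ix b m u) * ((((b:ℝ) ^ j) ^ Fintype.card ι)⁻¹ *
        ∑ w : ι → Fin (b ^ j), B' (fun i => b ^ j * ix b m u i + (w i : ℕ))) := by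
  have hbj : 0 < b ^ j := by positivity
  have e1 : ∀ u : ι → ℝ, G (ix b m u) * B' (ix b (m + j) u) =
      (fun z : ι → ℕ => G (fun i => z i / b ^ j) * B' z) (ix b (m + j) u) := by
    intro u
    change _ = G (fun i => ix b (m + j) u i / b ^ j) * B' (ix b (m + j) u)
    rw [ix_div hb m j u]
  have e2 := integral_ix (ι := ι) hb (m + j) (fun z : ι → ℕ => G (fun i => z i / b ^ j) * B' z)
  have e3 := integral_ix (ι := ι) hb m (fun y : ι → ℕ => G y * ((((b:ℝ) ^ j) ^ Fintype.card ι)⁻¹ *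
        ∑ w : ι → Fin (b ^ j), B' (fun i => b ^ j * y i + (w i : ℕ))))
  rw [e3]
  simp_rw [e1]
  rw [e2, sum_split b m j (fun z : ι → ℕ => G (fun i => z i / b ^ j) * B' z)]
  have e4 : ∀ (y : ι → Fin (b ^ m)) (w : ι → Fin (b ^ j)),
      (fun i => (b ^ j * (y i : ℕ) + (w i : ℕ)) / b ^ j) = fun i => (y i : ℕ) := by
    intro y w
    funext i
    rw [Nat.mul_add_div hbj, Nat.div_eq_of_lt (w i).2, add_zero]
  simp only [e4]
  rw [pow_add, mul_pow, mul_inv, mul_assoc, mul_sum]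
  congr 1
  refine sum_congr rfl fun y _ => ?_
  rw [← mul_sum]
  ring

/-- functions of the index of level `k` -/
def Dep (b k : ℕ) (f : (ι → ℝ) → ℝ) : Prop := ∃ F : (ι → ℕ) → ℝ, ∀ u, f u = F (ix b k u)

lemma Dep.mono {b : ℕ} (hb : 2 ≤ b) {k k' : ℕ} (hk : k ≤ k') {f : (ι → ℝ) → ℝ}
    (h : Dep b k f) : Dep b k' f := by
  obtain ⟨F, hF⟩ := h
  obtain ⟨r, rfl⟩ := Nat.exists_eq_add_of_le hk
  exact ⟨fun z => F fun i => z i / b ^ r, fun u => by rw [hF, ix_div hb k r u]⟩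

lemma Dep.int {b : ℕ} (hb : 2 ≤ b) {k : ℕ} {f : (ι → ℝ) → ℝ} (h : Dep b k f) :
    Integrable f (volume.restrict (Qc ι)) := by
  obtain ⟨F, hF⟩ := h
  have : f = fun u => F (ix b k u) := funext hF
  rw [this]
  exact int_ix hb k F

lemma Dep.sum {b k : ℕ} {α : Type} (s : Finset α) (f : α → (ι → ℝ) → ℝ)
    (h : ∀ a ∈ s, Dep b k (f a)) : Dep b k fun u => ∑ a ∈ s, f a u := by
  classical
  induction s using Finset.induction_on with
  | empty => exact ⟨fun _ => 0, fun u => by simp⟩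
  | insert a s ha ih =>
    obtain ⟨F, hF⟩ := h a (mem_insert_self a s)
    obtain ⟨G, hG⟩ := ih fun c hc => h c (mem_insert_of_mem hc)
    refine ⟨fun z => F z + G z, fun u => ?_⟩
    change ∑ a ∈ insert a s, f a u = F (ix b k u) + G (ix b k u)
    rw [sum_insert ha, hF u, ← hG u]

lemma Dep.op {b k : ℕ} (o : ℝ → ℝ → ℝ) {f g : (ι → ℝ) → ℝ} (hf : Dep b k f) (hg : Dep b k g) :
    Dep b k fun u => o (f u) (g u) := by
  obtain ⟨F, hF⟩ := hf
  obtain ⟨G, hG⟩ := hg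
  exact ⟨fun z => o (F z) (G z), fun u => by
    change o (f u) (g u) = o (F (ix b k u)) (G (ix b k u))
    rw [hF, hG]⟩

section seq

variable (b q : ℕ) (B : ℕ → (ι → ℕ) → ℝ)

/-- the average over the subcells -/
noncomputable def Av (n j : ℕ) (u : ι → ℝ) : ℝ :=
  (((b:ℝ) ^ j) ^ Fintype.card ι)⁻¹ * ∑ w : ι → Fin (b ^ j),
    B (q * n + j) (fun i => b ^ j * ix b (q * n) u i + (w i : ℕ))

/-- the value along the branch -/
noncomputable def Bv (n j : ℕ) (u : ι → ℝ) : ℝ := B (q * n + j) (ix b (q * n + j) u)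

/-- the differences -/
noncomputable def Xn (n : ℕ) (u : ι → ℝ) : ℝ := ∑ j ∈ range q, (Av b q B n j u - Bv b q B n j u)

/-- their sums -/
noncomputable def Sn (N : ℕ) (u : ι → ℝ) : ℝ := ∑ n ∈ range N, Xn b q B n u

variable {b q B}

lemma dep_Av (n j : ℕ) : Dep b (q * n) (Av (ι := ι) b q B n j) :=
  ⟨fun z => (((b:ℝ) ^ j) ^ Fintype.card ι)⁻¹ * ∑ w : ι → Fin (b ^ j),
    B (q * n + j) (fun i => b ^ j * z i + (w i : ℕ)), fun _ => rfl⟩

lemma dep_Bv (n j : ℕ) : Dep b (q * n + j) (Bv (ι := ι) b q B n j) :=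
  ⟨fun z => B (q * n + j) z, fun _ => rfl⟩

lemma dep_Xn (hb : 2 ≤ b) (n : ℕ) : Dep b (q * (n + 1)) (Xn (ι := ι) b q B n) := by
  refine Dep.sum (range q) (fun j u => Av b q B n j u - Bv b q B n j u) fun j hj => ?_
  rw [mem_range] at hj
  have h1 : q * n + j ≤ q * (n + 1) := by rw [mul_add, mul_one]; omega
  have h2 : q * n ≤ q * (n + 1) := by omega
  exact Dep.op (fun x y => x - y) ((dep_Av n j).mono hb h2) ((dep_Bv n j).mono hb h1)

lemma dep_Sn (hb : 2 ≤ b) (N : ℕ) : Dep b (q * N) (Sn (ι := ι) b q B N) := by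
  refine Dep.sum (range N) (fun n u => Xn b q B n u) fun n hn => ?_
  rw [mem_range] at hn
  exact (dep_Xn hb n).mono hb (Nat.mul_le_mul_left q hn)

variable {L : ℝ} (hB : ∀ k z, 0 ≤ B k z ∧ B k z ≤ L)

include hB in
lemma Av_bd (hb : 2 ≤ b) (n j : ℕ) (u : ι → ℝ) : 0 ≤ Av b q B n j u ∧ Av b q B n j u ≤ L := by
  have hbj : (0:ℝ) < ((b:ℝ) ^ j) ^ Fintype.card ι := by positivity
  unfold Av
  constructor
  · exact mul_nonneg (inv_nonneg.2 hbj.le) (sum_nonneg fun w _ => (hB _ _).1)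
  · rw [inv_mul_le_iff₀ hbj]
    refine (sum_le_card_nsmul univ _ L fun w _ => (hB _ _).2).trans (le_of_eq ?_)
    rw [card_univ, Fintype.card_fun, Fintype.card_fin, nsmul_eq_mul]
    push_cast
    ring

include hB in
lemma Xn_bd (hb : 2 ≤ b) (n : ℕ) (u : ι → ℝ) : |Xn b q B n u| ≤ q * L := by
  unfold Xn
  refine (abs_sum_le_sum_abs _ _).trans ?_
  refine (sum_le_card_nsmul (range q) _ L fun j _ => ?_).trans (le_of_eq ?_)
  · have h1 := Av_bd (q := q) hB hb n j u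
    have h2 := hB (q * n + j) (ix b (q * n + j) u)
    rw [abs_le]
    unfold Bv
    constructor <;> linarith [h1.1, h1.2, h2.1, h2.2]
  · rw [card_range, nsmul_eq_mul]

lemma int_zero (hb : 2 ≤ b) (n : ℕ) {g : (ι → ℝ) → ℝ} (hg : Dep b (q * n) g) :
    ∫ u in Qc ι, g u * Xn b q B n u = 0 := by
  obtain ⟨G, hG⟩ := hg
  have hdep : Dep b (q * n) g := ⟨G, hG⟩
  have h1 : ∀ u, g u * Xn b q B n u =
      ∑ j ∈ range q, (g u * Av b q B n j u - g u * Bv b q B n j u) := by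
    intro u
    unfold Xn
    rw [mul_sum]
    exact sum_congr rfl fun j _ => by ring
  simp_rw [h1]
  have ia : ∀ j, Integrable (fun u => g u * Av b q B n j u) (volume.restrict (Qc ι)) :=
    fun j => (Dep.op (fun x y => x * y) hdep (dep_Av n j)).int hb
  have ib : ∀ j, Integrable (fun u => g u * Bv b q B n j u) (volume.restrict (Qc ι)) :=
    fun j => (Dep.op (fun x y => x * y) (hdep.mono hb (Nat.le_add_right _ j))
      (dep_Bv n j)).int hb
  have hi : ∀ j ∈ range q, Integrable (fun u => g u * Av b q B n j u - g u * Bv b q B n j u)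
      (volume.restrict (Qc ι)) := fun j _ => (ia j).sub (ib j)
  rw [integral_finsetSum _ hi]
  refine sum_eq_zero fun j _ => ?_
  rw [integral_sub (ia j) (ib j), sub_eq_zero]
  have h2 := key (ι := ι) hb (q * n) j G (B (q * n + j))
  simp_rw [hG]
  exact h2.symm

include hB in
lemma step (hb : 2 ≤ b) (N : ℕ) {s : ℝ} (hs : 0 ≤ s) (hsL : s * (q * L) ≤ 1) :
    ∫ u in Qc ι, Real.exp (s * Sn b q B (N + 1) u) ≤
      (1 + (s * (q * L)) ^ 2) * ∫ u in Qc ι, Real.exp (s * Sn b q B N u) := by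
  have hdep : Dep b (q * N) fun u : ι → ℝ => Real.exp (s * Sn b q B N u) :=
    Dep.op (fun x _ => Real.exp (s * x)) (dep_Sn hb N) (dep_Sn (B := B) hb N)
  have hdep1 : Dep b (q * (N + 1)) fun u : ι → ℝ => Real.exp (s * Sn b q B (N + 1) u) :=
    Dep.op (fun x _ => Real.exp (s * x)) (dep_Sn hb (N + 1)) (dep_Sn (B := B) hb (N + 1))
  have hle : q * N ≤ q * (N + 1) := Nat.mul_le_mul_left q (Nat.le_succ N)
  have hdepX : Dep b (q * (N + 1)) fun u : ι → ℝ =>
      Real.exp (s * Sn b q B N u) * Xn b q B N u :=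
    Dep.op (fun x y => x * y) (hdep.mono hb hle) (dep_Xn hb N)
  have i1 := hdep.int hb
  have i2 := hdepX.int hb
  have hpt : ∀ u : ι → ℝ, Real.exp (s * Sn b q B (N + 1) u) ≤
      (1 + (s * (q * L)) ^ 2) * Real.exp (s * Sn b q B N u) +
        s * (Real.exp (s * Sn b q B N u) * Xn b q B N u) := by
    intro u
    have hX := Xn_bd (q := q) hB hb N u
    have h1 : |s * Xn b q B N u| ≤ s * (q * L) := by
      rw [abs_mul, abs_of_nonneg hs]
      exact mul_le_mul_of_nonneg_left hX hs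
    have h2 := abs_le.1 (Real.abs_exp_sub_one_sub_id_le (h1.trans hsL))
    have h3 : (s * Xn b q B N u) ^ 2 ≤ (s * (q * L)) ^ 2 := by
      rw [← sq_abs]
      exact pow_le_pow_left₀ (abs_nonneg _) h1 2
    have h4 : Sn b q B (N + 1) u = Sn b q B N u + Xn b q B N u := by
      unfold Sn
      rw [sum_range_succ]
    rw [h4, mul_add, Real.exp_add]
    have h5 : Real.exp (s * Xn b q B N u) ≤ 1 + (s * (q * L)) ^ 2 + s * Xn b q B N u := by
      linarith [h2.2]
    calc Real.exp (s * Sn b q B N u) * Real.exp (s * Xn b q B N u) ≤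
        Real.exp (s * Sn b q B N u) * (1 + (s * (q * L)) ^ 2 + s * Xn b q B N u) :=
          mul_le_mul_of_nonneg_left h5 (Real.exp_pos _).le
      _ = _ := by ring
  calc ∫ u in Qc ι, Real.exp (s * Sn b q B (N + 1) u) ≤
      ∫ u in Qc ι, ((1 + (s * (q * L)) ^ 2) * Real.exp (s * Sn b q B N u) +
        s * (Real.exp (s * Sn b q B N u) * Xn b q B N u)) :=
        integral_mono (hdep1.int hb) ((i1.const_mul _).add (i2.const_mul _)) hpt
    _ = (1 + (s * (q * L)) ^ 2) * ∫ u in Qc ι, Real.exp (s * Sn b q B N u) := by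
        rw [integral_add (i1.const_mul _) (i2.const_mul _), integral_const_mul,
          integral_const_mul, int_zero hb N hdep, mul_zero, add_zero]

include hB in
lemma moment (hb : 2 ≤ b) (N : ℕ) {s : ℝ} (hs : 0 ≤ s) (hsL : s * (q * L) ≤ 1) :
    ∫ u in Qc ι, Real.exp (s * Sn b q B N u) ≤ (1 + (s * (q * L)) ^ 2) ^ N := by
  induction N with
  | zero =>
    have h1 := integral_ix (ι := ι) hb 0 fun _ => 1
    rw [sum_const, card_univ, Fintype.card_fun, Fintype.card_fin, pow_zero, pow_zero, one_pow,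
      one_pow, one_smul, mul_one, inv_one] at h1
    simp only [Sn, range_zero, sum_empty, mul_zero, Real.exp_zero, pow_zero]
    exact h1.le
  | succ N ih =>
    calc _ ≤ (1 + (s * (q * L)) ^ 2) * ∫ u in Qc ι, Real.exp (s * Sn b q B N u) :=
          step hB hb N hs hsL
      _ ≤ (1 + (s * (q * L)) ^ 2) * (1 + (s * (q * L)) ^ 2) ^ N :=
          mul_le_mul_of_nonneg_left ih (by positivity)
      _ = _ := by ring

include hB in
lemma tail (hb : 2 ≤ b) (N : ℕ) {s : ℝ} (hs : 0 ≤ s) (hsL : s * (q * L) ≤ 1) (ε : ℝ) :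
    (volume.restrict (Qc ι)).real {u | s * (ε * N) ≤ s * Sn b q B N u} ≤
      (Real.exp (-(s * ε)) * (1 + (s * (q * L)) ^ 2)) ^ N := by
  have hdep : Dep b (q * N) fun u : ι → ℝ => Real.exp (s * Sn b q B N u) :=
    Dep.op (fun x _ => Real.exp (s * x)) (dep_Sn hb N) (dep_Sn (B := B) hb N)
  have h1 := mul_meas_ge_le_integral_of_nonneg
    (ae_of_all (volume.restrict (Qc ι)) fun u => (Real.exp_pos (s * Sn b q B N u)).le)
    (hdep.int hb) (Real.exp (s * (ε * N)))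
  simp only [Real.exp_le_exp] at h1
  have h2 := h1.trans (moment hB hb N hs hsL)
  have h3 : Real.exp (-(s * ε)) ^ N * Real.exp (s * (ε * N)) = 1 := by
    rw [← Real.exp_nat_mul, ← Real.exp_add]
    have : (N:ℝ) * -(s * ε) + s * (ε * N) = 0 := by ring
    rw [this, Real.exp_zero]
  calc (volume.restrict (Qc ι)).real {u | s * (ε * N) ≤ s * Sn b q B N u} =
      Real.exp (-(s * ε)) ^ N * (Real.exp (s * (ε * N)) *
        (volume.restrict (Qc ι)).real {u | s * (ε * N) ≤ s * Sn b q B N u}) := by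
        rw [← mul_assoc (Real.exp (-(s * ε)) ^ N), h3, one_mul]
    _ ≤ Real.exp (-(s * ε)) ^ N * (1 + (s * (q * L)) ^ 2) ^ N :=
        mul_le_mul_of_nonneg_left h2 (by positivity)
    _ = _ := (mul_pow _ _ _).symm

include hB in
lemma ae_ev (hb : 2 ≤ b) {ε : ℝ} (hε : 0 < ε) :
    ∀ᵐ u ∂(volume.restrict (Qc ι)), ∀ᶠ N : ℕ in atTop, Sn b q B N u ≤ ε * N := by
  have hL : 0 ≤ L := by
    have := hB 0 fun _ => 0
    linarith [this.1, this.2]
  obtain ⟨T, hT⟩ : ∃ T : ℝ, T = q * L := ⟨_, rfl⟩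
  have hT0 : 0 ≤ T := by rw [hT]; positivity
  -- the parameter
  obtain ⟨s, hs0, hs1, hs2⟩ : ∃ s : ℝ, 0 < s ∧ s * T ≤ 1 ∧ s * T ^ 2 < ε := by
    refine ⟨min 1 (ε / 2) / (1 + T) ^ 2, by positivity, ?_, ?_⟩
    · rw [div_mul_eq_mul_div, div_le_one (by positivity)]
      have : min 1 (ε / 2) ≤ 1 := min_le_left _ _
      nlinarith
    · rw [div_mul_eq_mul_div, div_lt_iff₀ (by positivity)]
      have h1 : min 1 (ε / 2) ≤ ε / 2 := min_le_right _ _
      have h2 : min 1 (ε / 2) * T ^ 2 ≤ ε / 2 * T ^ 2 :=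
        mul_le_mul_of_nonneg_right h1 (sq_nonneg T)
      nlinarith [mul_nonneg hε.le hT0, mul_nonneg hε.le (sq_nonneg T)]
  have hfin : IsFiniteMeasure (volume.restrict (Qc ι)) := ⟨by
    rw [Measure.restrict_apply_univ, Qc_eq, Real.volume_pi_Ico]
    exact (ENNReal.prod_ne_top fun i _ => ENNReal.ofReal_ne_top).lt_top⟩
  obtain ⟨r, hr⟩ : ∃ r : ℝ, r = Real.exp (-(s * ε)) * (1 + (s * T) ^ 2) := ⟨_, rfl⟩
  have hr0 : 0 ≤ r := by rw [hr]; positivity
  have hr1 : r < 1 := by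
    rw [hr]
    have h1 : 1 + (s * T) ^ 2 ≤ Real.exp ((s * T) ^ 2) := by
      linarith [Real.add_one_le_exp ((s * T) ^ 2)]
    calc Real.exp (-(s * ε)) * (1 + (s * T) ^ 2) ≤
        Real.exp (-(s * ε)) * Real.exp ((s * T) ^ 2) :=
          mul_le_mul_of_nonneg_left h1 (Real.exp_pos _).le
      _ = Real.exp (-(s * ε) + (s * T) ^ 2) := (Real.exp_add _ _).symm
      _ < 1 := by
        rw [Real.exp_lt_one_iff]
        have : s * (s * T ^ 2) < s * ε := mul_lt_mul_of_pos_left hs2 hs0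
        nlinarith
  have htail : ∀ N : ℕ, (volume.restrict (Qc ι)) {u | s * (ε * N) ≤ s * Sn b q B N u} ≤
      ENNReal.ofReal (r ^ N) := by
    intro N
    have h1 := tail hB hb N hs0.le (by rw [← hT]; exact hs1) ε
    rw [← hT, ← hr] at h1
    rw [← ofReal_measureReal]
    exact ENNReal.ofReal_le_ofReal h1
  have hsum : ∑' N : ℕ, (volume.restrict (Qc ι)) {u | s * (ε * N) ≤ s * Sn b q B N u} ≠ ⊤ := by
    refine ne_top_of_le_ne_top ?_ (ENNReal.tsum_le_tsum htail)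
    rw [← ENNReal.ofReal_tsum_of_nonneg (fun N => pow_nonneg hr0 N)
      (summable_geometric_of_lt_one hr0 hr1)]
    exact ENNReal.ofReal_ne_top
  have hbc := ae_eventually_notMem hsum
  filter_upwards [hbc] with u hu
  filter_upwards [hu] with N hN
  have h1 : ¬ s * (ε * N) ≤ s * Sn b q B N u := hN
  push Not at h1
  exact (lt_of_mul_lt_mul_left h1 hs0.le).le

end seq

theorem t_LLN : Pool.Agent.V7H68.HF.S_LLN := by
  intro ι _ _ b q hb _ B L hB
  have h1 : ∀ᵐ u ∂(volume.restrict (Qc ι)), ∀ p : ℕ, ∀ᶠ N : ℕ in atTop,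
      Sn b q B N u ≤ (1 / ((p:ℝ) + 1)) * N :=
    ae_all_iff.2 fun p => ae_ev hB hb (by positivity)
  change ∀ᵐ u ∂(volume.restrict (Qc ι)), _
  filter_upwards [h1] with u hu ε hε
  obtain ⟨p, hp⟩ := exists_nat_one_div_lt hε
  filter_upwards [hu p] with N hN
  have h2 : Sn b q B N u = (∑ n ∈ range N, ∑ j ∈ range q, Av b q B n j u) -
      ∑ n ∈ range N, ∑ j ∈ range q, Bv b q B n j u := by
    unfold Sn Xn
    rw [← sum_sub_distrib]
    exact sum_congr rfl fun n _ => sum_sub_distrib _ _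
  have h3 : (1 / ((p:ℝ) + 1)) * N ≤ ε * N :=
    mul_le_mul_of_nonneg_right hp.le (Nat.cast_nonneg N)
  have h4 : (∑ n ∈ range N, ∑ j ∈ range q, Av b q B n j u) ≤
      ∑ n ∈ range N, ∑ j ∈ range q, Bv b q B n j u + ε * N := by linarith
  exact h4

end Pool.Agent.V7H67.HF
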